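import Pool.Agent.helper58.FI3.SpecF3

set_option autoImplicit false

namespace Pool.Agent.FI3

open Pool.Agent.helper58.DC Pool.Agent.DI Pool.Agent.GR Pool.Agent.OB Pool.Agent.DR Pool.Agent.FI

theorem FOV3_nz {G : Type} [Group G] {P N : Subgroup G} (hNP : N ≤ nz P) {n : G} (hn : n ∈ N)
    (x : G) : n * x * n⁻¹ ∈ cz P ↔ x ∈ cz P := by
  have h1 := Subgroup.mem_normalizer_iff.1 (hNP hn)
  rw [Subgroup.mem_centralizer_iff, Subgroup.mem_centralizer_iff]
  constructor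
  · intro h y hy
    have h2 := h (n * y * n⁻¹) ((h1 y).1 hy)
    have h3 : n * (y * x) * n⁻¹ = n * (x * y) * n⁻¹ := by
      have e1 : n * (y * x) * n⁻¹ = n * y * n⁻¹ * (n * x * n⁻¹) := by group
      have e2 : n * (x * y) * n⁻¹ = n * x * n⁻¹ * (n * y * n⁻¹) := by group
      rw [e1, e2, h2]
    exact mul_left_cancel (mul_right_cancel h3)
  · intro h y hy
    have h4 : n⁻¹ * y * n ∈ P := by
      rw [h1]
      have e1 : n * (n⁻¹ * y * n) * n⁻¹ = y := by group
      rw [e1]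
      exact hy
    have h2 := h (n⁻¹ * y * n) h4
    have e1 : y * (n * x * n⁻¹) = n * (n⁻¹ * y * n * x) * n⁻¹ := by group
    have e2 : n * x * n⁻¹ * y = n * (x * (n⁻¹ * y * n)) * n⁻¹ := by group
    rw [e1, e2, h2]

open Classical in
theorem FOV3_cc {G : Type} [Group G] [Fintype G] (ψ z : G → ℂ) :
    cc ψ z = (∑ x, z x * ψ x) / ψ 1 := by
  unfold cc
  rw [finsum_eq_sum_of_fintype]

theorem FOV3_val {G : Type} [Group G] (ψ : G → ℂ) (n x : G) :
    funMap (MulAut.conj n) ψ x = ψ (n⁻¹ * x * n) := by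
  unfold funMap
  rw [MulAut.conj_inv_apply]

/-- the restriction of `φ` to `cz P` as a finite sum over the conjugates -/
theorem FOV3_orb {G : Type} [Group G] [Finite G] (N K : Subgroup G) (φ ψ : G → ℂ) (e : ℕ)
    (he : 0 < e) (hover : OverE K N φ ψ e) : ∃ O : Finset (G → ℂ),
    (∀ x ∈ K, φ x = e * ∑ ψ' ∈ O, ψ' x) ∧ (∀ ψ' ∈ O, ∃ n ∈ N, ψ' = funMap (MulAut.conj n) ψ) ∧
    φ 1 = (e * O.card : ℂ) * ψ 1 ∧ (e * O.card : ℂ) ≠ 0 := by
  classical
  have := Fintype.ofFinite G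
  have hO : {ψ' : G → ℂ | ∃ n ∈ N, ψ' = funMap (MulAut.conj n) ψ}.Finite := by
    have h3 : {ψ' : G → ℂ | ∃ n ∈ N, ψ' = funMap (MulAut.conj n) ψ} =
        (fun n : G => funMap (MulAut.conj n) ψ) '' (N : Set G) := by
      ext ψ'
      simp only [Set.mem_ofPred_eq, Set.mem_image, SetLike.mem_coe]
      constructor
      · rintro ⟨n, hn, rfl⟩
        exact ⟨n, hn, rfl⟩
      · rintro ⟨n, hn, rfl⟩
        exact ⟨n, hn, rfl⟩
    rw [h3]
    exact (Set.toFinite _).image _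
  set O := hO.toFinset with hOdef
  have hov : ∀ x ∈ K, φ x = e * ∑ ψ' ∈ O, ψ' x := by
    intro x hx
    rw [hover x hx, finsum_mem_eq_finite_toFinset_sum _ hO]
  have hmemO : ∀ ψ' ∈ O, ∃ n ∈ N, ψ' = funMap (MulAut.conj n) ψ := by
    intro ψ' h
    rw [hOdef, Set.Finite.mem_toFinset] at h
    exact h
  have hone : ∀ ψ' ∈ O, ψ' 1 = ψ 1 := by
    intro ψ' h
    obtain ⟨n, hn, rfl⟩ := hmemO ψ' h
    rw [FOV3_val]
    congr 1
    group
  refine ⟨O, hov, hmemO, ?_, ?_⟩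
  · rw [hov 1 (one_mem _), Finset.sum_congr rfl hone, Finset.sum_const, nsmul_eq_mul, mul_assoc]
  · have hOne : O.Nonempty := by
      refine ⟨funMap (MulAut.conj 1) ψ, ?_⟩
      rw [hOdef, Set.Finite.mem_toFinset]
      exact ⟨1, one_mem _, rfl⟩
    have h6 : (e * O.card : ℕ) ≠ 0 := Nat.mul_ne_zero he.ne' hOne.card_pos.ne'
    exact_mod_cast h6

theorem FOV3_key (hC5a : C5a_stmt) (p : ℕ) (M : Ideal (integralClosure ℤ ℂ)) (hM : Setup p M)
    (G : Type) [Group G] [Finite G] (P N : Subgroup G) (hP : IsPGroup p P) (hPN : P ≤ N)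
    (hNP : N ≤ nz P) (φ : G → ℂ) (hφ : φ ∈ IrrOn N) (ψ : G → ℂ) (hψ : ψ ∈ IrrOn (cz P)) (e : ℕ)
    (he : 0 < e) (hover : OverE (cz P) N φ ψ e) (z : G → ℂ)
    (hz : ∀ l ∈ N, ∀ x, z (l * x * l⁻¹) = z x) (hzi : ∀ x, IsIntegral ℤ (z x)) :
    Mcong M (cc φ z) (cc ψ z) := by
  classical
  have : Fact p.Prime := ⟨hM.pr⟩
  have := Fintype.ofFinite G
  set z' : G → ℂ := fun x => if x ∈ cz P then z x else 0 with hz'def
  set z'' : G → ℂ := fun x => if x ∈ cz P then 0 else z x with hz''def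
  have hinv'' : ∀ l ∈ N, ∀ x, z'' (l * x * l⁻¹) = z'' x := by
    intro l hl x
    simp only [hz''def, FOV3_nz hNP hl, hz l hl x]
  have hinv' : ∀ l ∈ N, ∀ x, z' (l * x * l⁻¹) = z' x := by
    intro l hl x
    simp only [hz'def, FOV3_nz hNP hl, hz l hl x]
  obtain ⟨c, hc, hc2⟩ := hC5a G p M hM.max hM.mem P N hPN hNP hP φ hφ z'' hinv''
    (fun x => by
      simp only [hz''def]
      split_ifs
      · exact isIntegral_zero
      · exact hzi x)
    (fun x hx => by
      simp only [hz''def]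
      rw [if_pos hx])
  rw [sub_zero] at hc2
  refine ⟨c, hc, ?_⟩
  rw [← hc2]
  have h1 : cc φ z = cc φ z'' + cc φ z' := by
    rw [FOV3_cc, FOV3_cc, FOV3_cc, ← add_div, ← Finset.sum_add_distrib]
    congr 1
    refine Finset.sum_congr rfl fun x _ => ?_
    simp only [hz'def, hz''def]
    by_cases hx : x ∈ cz P
    · simp [hx]
    · simp [hx]
  have h2 : cc ψ z = cc ψ z' := by
    rw [FOV3_cc, FOV3_cc]
    congr 1
    refine Finset.sum_congr rfl fun x _ => ?_
    simp only [hz'def]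
    by_cases hx : x ∈ cz P
    · simp [hx]
    · simp [hx, hψ.1 x hx]
  obtain ⟨O, hov, hmemO, hφ1, hne⟩ := FOV3_orb N (cz P) φ ψ e he hover
  have hinner : ∀ ψ' ∈ O, ∑ x, z' x * ψ' x = ∑ x, z' x * ψ x := by
    intro ψ' h
    obtain ⟨n, hn, rfl⟩ := hmemO ψ' h
    refine Fintype.sum_equiv (MulAut.conj n⁻¹).toEquiv _ _ fun x => ?_
    rw [FOV3_val]
    have e1 : (MulAut.conj n⁻¹).toEquiv x = n⁻¹ * x * n := by
      change n⁻¹ * x * (n⁻¹)⁻¹ = _
      rw [inv_inv]
    rw [e1]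
    congr 1
    have h5 := hinv' n⁻¹ (N.inv_mem hn) x
    rw [inv_inv] at h5
    exact h5.symm
  have hsum : ∑ x, z' x * φ x = (e * O.card : ℂ) * ∑ x, z' x * ψ x := by
    have e1 : ∀ x, z' x * φ x = (e : ℂ) * ∑ ψ' ∈ O, z' x * ψ' x := by
      intro x
      by_cases hx : x ∈ cz P
      · rw [hov x hx, Finset.mul_sum, Finset.mul_sum, Finset.mul_sum]
        refine Finset.sum_congr rfl fun ψ' _ => ?_
        ring
      · have e2 : z' x = 0 := by
          simp only [hz'def]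
          rw [if_neg hx]
        simp [e2]
    rw [Finset.sum_congr rfl fun x _ => e1 x, ← Finset.mul_sum, Finset.sum_comm,
      Finset.sum_congr rfl hinner, Finset.sum_const, nsmul_eq_mul, mul_assoc]
  have h3 : cc φ z' = cc ψ z' := by
    rw [FOV3_cc, FOV3_cc, hsum, hφ1, mul_div_mul_left _ _ hne]
  rw [h1, h2, h3]
  ring

/-- central elements of `H` and a character of `H` -/
theorem FOV3_cent (hSCH : SCH_stmt) (hIF : IF_stmt) (G : Type) [Group G] [Finite G] (H : Subgroup G)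
    (ψ : G → ℂ) (hψ : ψ ∈ IrrOn H) (z : G) (hz : z ∈ H) (hcomm : ∀ n ∈ H, n * z = z * n) :
    (∀ x, ψ (z * x) = ψ x) ↔ ψ z = ψ 1 := by
  classical
  have := Fintype.ofFinite G
  obtain ⟨n, hn, hn1⟩ := ((hIF G H).2 ψ hψ).1
  have h1 : ψ 1 ≠ 0 := by
    rw [hn1]
    exact_mod_cast hn.ne'
  constructor
  · intro h
    have := h 1
    rw [mul_one] at this
    exact this
  · intro h x
    by_cases hx : x ∈ H
    · have h2 := hSCH G H ψ hψ x hx z
      have h3 : ∑ᶠ t ∈ (H : Set G), ψ (x * (t * z * t⁻¹)) = (Nat.card H : ℂ) * ψ (z * x) := by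
        have h4 : ∀ t ∈ (H : Set G), ψ (x * (t * z * t⁻¹)) = ψ (z * x) := by
          intro t ht
          have e1 : t * z * t⁻¹ = z := by
            rw [hcomm t ht]
            group
          rw [e1, hcomm x hx]
        rw [finsum_mem_congr rfl h4, finsum_mem_eq_toFinset_sum, Finset.sum_const, nsmul_eq_mul]
        congr 2
        rw [Set.toFinset_card, Nat.card_eq_fintype_card]
        rfl
      rw [h3, h] at h2
      have hc : (Nat.card H : ℂ) ≠ 0 := by
        exact_mod_cast Nat.card_pos.ne'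
      have h5 : (ψ 1 * (Nat.card H : ℂ)) * ψ (z * x) = (ψ 1 * (Nat.card H : ℂ)) * ψ x := by
        linear_combination h2
      exact mul_left_cancel₀ (mul_ne_zero h1 hc) h5
    · rw [hψ.1 x hx, hψ.1 (z * x)]
      intro h6
      apply hx
      have h7 := H.mul_mem (H.inv_mem hz) h6
      rwa [inv_mul_cancel_left] at h7

theorem FOV3 (hC5a : C5a_stmt) (hSCH : SCH_stmt) (hIF : IF_stmt) : FOV3_stmt := by
  classical
  intro p M hM G _ _ P N L hP hPN hcz hNP hNL φ hφ ψ hψ e he hover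
  constructor
  · intro z hz hzi
    exact FOV3_key hC5a p M hM G P N hP hPN hNP φ hφ ψ hψ e he hover z
      (fun l hl x => hz.1 l (hNL hl) x) hzi
  · intro z hz hcomm
    rw [FOV3_cent hSCH hIF G N φ hφ z (hcz hz) hcomm,
      FOV3_cent hSCH hIF G (cz P) ψ hψ z hz (fun n hn => hcomm n (hcz hn))]
    obtain ⟨O, hov, hmemO, hφ1, hne⟩ := FOV3_orb N (cz P) φ ψ e he hover
    have hval : ∀ ψ' ∈ O, ψ' z = ψ z := by
      intro ψ' h
      obtain ⟨n, hn, rfl⟩ := hmemO ψ' h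
      rw [FOV3_val]
      congr 1
      rw [mul_assoc, ← hcomm n hn, inv_mul_cancel_left]
    have hφz : φ z = (e * O.card : ℂ) * ψ z := by
      rw [hov z hz, Finset.sum_congr rfl hval, Finset.sum_const, nsmul_eq_mul, mul_assoc]
    rw [hφz, hφ1]
    constructor
    · intro h
      exact mul_left_cancel₀ hne h
    · intro h
      rw [h]

end Pool.Agent.FI3
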